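import Pool.Agent.Helper28.BPack.Base

/-!
# Colines and largest hyperplanes
-/

set_option autoImplicit false

namespace Pool.Agent.Helper49.SC

open Pool.Agent.Helper28.BPack Finset

variable {L : Type} [Lattice L] [BoundedOrder L] [Fintype L] [IsUpperModularLattice L]

theorem exists_above (hat : ∀ x : L, ∃ s : Finset L, (∀ a ∈ s, IsAtom a) ∧ s.sup id = x)
    {x : L} {n : ℕ} (h1 : rk x ≤ n) (h2 : n ≤ rk (⊤ : L)) : ∃ y, x ≤ y ∧ rk y = n := by
  induction n, h1 using Nat.le_induction with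
  | base => exact ⟨x, le_rfl, rfl⟩
  | succ n hn ih =>
    obtain ⟨y, hy, hr⟩ := ih (by omega)
    have hne : ¬ (⊤ : L) ≤ y := by
      intro h
      have h3 := rk_mono h
      omega
    obtain ⟨b, hb, -, hby⟩ := exists_atom hat hne
    exact ⟨y ⊔ b, hy.trans le_sup_left, by rw [rk_sup_atom hb hby, hr]⟩

open Classical in
theorem small_of_coline (hat : ∀ x : L, ∃ s : Finset L, (∀ a ∈ s, IsAtom a) ∧ s.sup id = x)
    {t : ℕ} (ht : ∀ x : L, rk x + 2 = rk (⊤ : L) →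
      (univ.filter (fun a : L => IsAtom a ∧ a ≤ x)).card ≤ t) (hr : 4 ≤ rk (⊤ : L)) :
    (∀ x : L, rk x + 2 ≤ rk (⊤ : L) →
      (univ.filter (fun a : L => IsAtom a ∧ a ≤ x)).card ≤ t) ∧ 1 ≤ t := by
  constructor
  · intro x hx
    obtain ⟨y, hxy, hy⟩ := exists_above hat (x := x) (n := rk (⊤ : L) - 2) (by omega) (by omega)
    refine (Finset.card_le_card ?_).trans (ht y (by omega))
    intro a ha
    rw [Finset.mem_filter] at ha ⊢
    exact ⟨ha.1, ha.2.1, ha.2.2.trans hxy⟩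
  · obtain ⟨y, -, hy⟩ := exists_above hat (x := (⊥ : L)) (n := rk (⊤ : L) - 2)
      (by rw [rk_bot]; omega) (by omega)
    have hne : ¬ y ≤ (⊥ : L) := by
      intro h
      have h3 := rk_mono h
      rw [rk_bot] at h3
      omega
    obtain ⟨b, hb, hby, -⟩ := exists_atom hat hne
    refine le_trans ?_ (ht y (by omega))
    exact Finset.card_pos.mpr ⟨b, Finset.mem_filter.mpr ⟨Finset.mem_univ _, hb, hby⟩⟩

open Classical in
theorem exists_largest (hat : ∀ x : L, ∃ s : Finset L, (∀ a ∈ s, IsAtom a) ∧ s.sup id = x)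
    {T : ℕ} (h : ∃ x : L, x ≠ ⊤ ∧ T < (univ.filter (fun a : L => IsAtom a ∧ a ≤ x)).card) :
    ∃ Q : L, rk Q + 1 = rk (⊤ : L) ∧ T < (univ.filter (fun a : L => IsAtom a ∧ a ≤ Q)).card ∧
      ∀ q : L, q ≠ ⊤ → (univ.filter (fun a : L => IsAtom a ∧ a ≤ q)).card ≤
        (univ.filter (fun a : L => IsAtom a ∧ a ≤ Q)).card := by
  obtain ⟨x, hx, hxT⟩ := h
  obtain ⟨R, hR, hmax⟩ := Finset.exists_max_image (univ.filter (fun x : L => x ≠ ⊤))
    (fun x => (univ.filter (fun a : L => IsAtom a ∧ a ≤ x)).card)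
    ⟨x, Finset.mem_filter.mpr ⟨Finset.mem_univ _, hx⟩⟩
  have hR1 : R ≠ ⊤ := (Finset.mem_filter.mp hR).2
  have h1 : rk R < rk (⊤ : L) := rk_lt (lt_top_iff_ne_top.mpr hR1)
  obtain ⟨Q, hRQ, hQ⟩ := exists_above hat (x := R) (n := rk (⊤ : L) - 1) (by omega) (by omega)
  have h2 : (univ.filter (fun a : L => IsAtom a ∧ a ≤ R)).card ≤
      (univ.filter (fun a : L => IsAtom a ∧ a ≤ Q)).card := by
    refine Finset.card_le_card ?_
    intro a ha
    rw [Finset.mem_filter] at ha ⊢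
    exact ⟨ha.1, ha.2.1, ha.2.2.trans hRQ⟩
  have h3 : ∀ q : L, q ≠ ⊤ → (univ.filter (fun a : L => IsAtom a ∧ a ≤ q)).card ≤
      (univ.filter (fun a : L => IsAtom a ∧ a ≤ Q)).card := fun q hq =>
    (hmax q (Finset.mem_filter.mpr ⟨Finset.mem_univ _, hq⟩)).trans h2
  exact ⟨Q, by omega, lt_of_lt_of_le hxT (h3 x hx), h3⟩

end Pool.Agent.Helper49.SC
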